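import Pool.Agent.H20.SPL.KhintchineFibreProof

/-!
# Khintchine's simultaneous theorem on vertical lines

For every monotonic `ψ` with `∑ ψ(q)² = ∞` and every real `α`, almost every `β ∈ [0,1]` satisfies
`‖q α‖ < ψ(q)` and `‖q β‖ < ψ(q)` for infinitely many `q`.

Outline. At the scale `M = 2^n` let `δ ≈ ψ(2^8 M)` (cut off at `M^(-1/2)`) and let `s` be the least
positive integer with `‖s α‖ ≤ 1/M`.  If `s ≤ 1/δ` we only use denominators `j s`, `j ≤ M δ`; if
`s > 1/δ` we use Minkowski's theorem (pigeonhole) and a spacing argument that shows that few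
`q ≤ M` satisfy `‖q α‖ ≤ δ`.  In both cases at least half of the `β` are within
`ρ ≈ 1/(M² δ² w)` of an admissible fraction, where `w = min (s, 1/δ)`; a maximal `ρ`-separated
family of admissible fractions gives sets `E_n` of measure `≍ M δ²` with
`|E_n ∩ E_m| ≪ |E_n| |E_m| + |E_n| 2^{-|n-m|}`, hence a limsup set of positive measure.
Cassels' lemma and the ergodicity of `x ↦ 2x` finish the proof.
-/

open MeasureTheory Set Filter Metric
open scoped Topology ENNReal

namespace Pool.Agent.Results.MP_2688e8_nt.KhintchineFibre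

/-- **Khintchine's simultaneous theorem on vertical lines.**  For every monotonic
`ψ : ℕ → ℝ⁺` with `∑ ψ(q)² = ∞` and every real `α`, for Lebesgue almost every `β ∈ [0,1]` there
are infinitely many `q ≥ 1` with `‖q α‖ < ψ(q)` and `‖q β‖ < ψ(q)`. -/
theorem result (ψ : ℕ → ℝ) (hpos : ∀ q, 1 ≤ q → 0 < ψ q)
    (hmono : MonotoneOn ψ (Ici 1) ∨ AntitoneOn ψ (Ici 1))
    (hdiv : ¬ Summable (fun q : ℕ => ψ (q + 1) ^ 2)) (α : ℝ) :
    volume {β : ℝ | β ∈ Icc (0 : ℝ) 1 ∧ {q : ℕ | 1 ≤ q ∧
      |(q : ℝ) * α - round ((q : ℝ) * α)| < ψ q ∧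
      |(q : ℝ) * β - round ((q : ℝ) * β)| < ψ q}.Infinite} = 1 :=
  result_proof ψ hpos hmono hdiv α

end Pool.Agent.Results.MP_2688e8_nt.KhintchineFibre
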